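import Mathlib

set_option autoImplicit false

open MeasureTheory Set Filter Topology TopologicalSpace Metric

namespace Pool.Agent.W921.Sel

universe u v

section sel

variable {X : Type u} [MetricSpace X] [CompleteSpace X] [SecondCountableTopology X] [Nonempty X]
  [MeasurableSpace X] [BorelSpace X] {Y : Type v} (π : X → Y)

/-- radii -/
noncomputable def r (k : ℕ) : ℝ := (1 / 2) ^ k

theorem r_pos (k : ℕ) : 0 < r k := by unfold r; positivity

variable (X) in
/-- open sets of the scheme -/
noncomputable def V : List ℕ → Set X
  | [] => univ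
  | n :: s => V s ∩ ball (denseSeq X n) (r s.length)

variable (X) in
/-- closed sets of the scheme -/
noncomputable def C : List ℕ → Set X
  | [] => univ
  | n :: s => C s ∩ closedBall (denseSeq X n) (r s.length)

theorem isOpen_V (s : List ℕ) : IsOpen (V X s) := by
  induction s with
  | nil => exact isOpen_univ
  | cons n s ih => exact ih.inter isOpen_ball

theorem isClosed_C (s : List ℕ) : IsClosed (C X s) := by
  induction s with
  | nil => exact isClosed_univ
  | cons n s ih => exact ih.inter isClosed_closedBall

theorem V_subset_C (s : List ℕ) : V X s ⊆ C X s := by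
  induction s with
  | nil => exact Subset.rfl
  | cons n s ih => exact inter_subset_inter ih ball_subset_closedBall

/-- the saturation of the open set -/
def S (s : List ℕ) : Set X := {x | ∃ x', π x' = π x ∧ x' ∈ V X s}

open Classical in
/-- the next index -/
noncomputable def next (x : X) (s : List ℕ) : ℕ := sInf {n | x ∈ S π (n :: s)}

/-- the branch -/
noncomputable def L (x : X) : ℕ → List ℕ
  | 0 => []
  | k + 1 => next π x (L x k) :: L x k

theorem length_L (x : X) (k : ℕ) : (L π x k).length = k := by
  induction k with
  | zero => rfl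
  | succ k ih => simp [L, ih]

theorem L_congr {x x' : X} (h : π x = π x') (k : ℕ) : L π x k = L π x' k := by
  have hS : ∀ s, x ∈ S π s ↔ x' ∈ S π s := by
    intro s
    simp only [S, mem_ofPred_eq, h]
  induction k with
  | zero => rfl
  | succ k ih =>
    simp only [L, ih, next, hS]

theorem mem_S_L (x : X) (k : ℕ) : x ∈ S π (L π x k) := by
  induction k with
  | zero => exact ⟨x, rfl, mem_univ _⟩
  | succ k ih =>
    obtain ⟨x', hx', hV⟩ := ih
    have hne : {n | x ∈ S π (n :: L π x k)}.Nonempty := by
      obtain ⟨_, hy, ⟨n, rfl⟩⟩ := (denseRange_denseSeq X).inter_open_nonempty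
        (ball x' (r (L π x k).length)) isOpen_ball ⟨x', mem_ball_self (r_pos _)⟩
      exact ⟨n, x', hx', hV, mem_ball'.2 (mem_ball.1 hy)⟩
    exact Nat.sInf_mem hne

/-- the transversal -/
def T : Set X := {x | ∀ k, x ∈ C X (L π x k)}

theorem C_anti (x : X) {k l : ℕ} (h : k ≤ l) : C X (L π x l) ⊆ C X (L π x k) := by
  induction l, h using Nat.le_induction with
  | base => exact Subset.rfl
  | succ l _ ih => exact inter_subset_left.trans ih

theorem dist_le {x a b : X} {k : ℕ} (ha : a ∈ C X (L π x (k + 1))) (hb : b ∈ C X (L π x (k + 1))) :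
    dist a b ≤ 2 * r k := by
  have h1 := mem_closedBall.1 ha.2
  have h2 := mem_closedBall.1 hb.2
  rw [length_L] at h1 h2
  have := dist_triangle_right a b (denseSeq X (next π x (L π x k)))
  linarith

theorem tendsto_r : Tendsto (fun k => 2 * r k) atTop (𝓝 0) := by
  have : Tendsto (fun k => (2 : ℝ) * (1 / 2) ^ k) atTop (𝓝 (2 * 0)) :=
    (tendsto_pow_atTop_nhds_zero_of_lt_one (by norm_num) (by norm_num)).const_mul 2
  simpa [r] using this

theorem injOn_T : InjOn π (T π) := by
  intro a ha b hb hab
  have h : ∀ k, dist a b ≤ 2 * r k := by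
    intro k
    refine dist_le π (x := a) (ha (k + 1)) ?_
    rw [L_congr π hab]
    exact hb (k + 1)
  have h0 : dist a b ≤ 0 := ge_of_tendsto' tendsto_r h
  exact dist_le_zero.1 h0

theorem exists_mem_T (hcl : ∀ x, IsClosed (π ⁻¹' {π x})) (x : X) : ∃ a ∈ T π, π a = π x := by
  choose a ha haV using fun k => mem_S_L π x k
  have haC : ∀ k l, k ≤ l → a l ∈ C X (L π x k) := fun k l h =>
    C_anti π x h (V_subset_C _ (haV l))
  have hcau : CauchySeq (fun k => a (k + 1)) := by
    refine cauchySeq_of_le_tendsto_0' (fun k => 2 * r k) (fun k l h => ?_) tendsto_r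
    exact dist_le π (x := x) (haC _ _ le_rfl) (haC _ _ (by omega))
  obtain ⟨b, hb⟩ := cauchySeq_tendsto_of_complete hcau
  have hπ : π b = π x := (hcl x).mem_of_tendsto hb (Eventually.of_forall fun k => ha (k + 1))
  refine ⟨b, fun k => ?_, hπ⟩
  rw [L_congr π hπ]
  refine (isClosed_C _).mem_of_tendsto hb ?_
  filter_upwards [eventually_ge_atTop k] with l hl
  exact haC k (l + 1) (by omega)

theorem measurableSet_L (hsat : ∀ U : Set X, IsOpen U → MeasurableSet {x | ∃ x', π x' = π x ∧ x' ∈ U})
    (k : ℕ) : ∀ s, MeasurableSet {x | L π x k = s} := by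
  classical
  induction k with
  | zero =>
    intro s
    simp only [L]
    exact MeasurableSet.const _
  | succ k ih =>
    intro s
    rcases s with _ | ⟨n, t⟩
    · simp [L]
    · have hS : ∀ s, MeasurableSet (S π s) := fun s => hsat _ (isOpen_V s)
      have : {x | L π x (k + 1) = n :: t} = {x | L π x k = t} ∩
          ((S π (n :: t) ∩ ⋂ m : Fin n, (S π ((m : ℕ) :: t))ᶜ) ∪
            ({x | n = 0} ∩ ⋂ m : ℕ, (S π (m :: t))ᶜ)) := by
        ext x
        simp only [L, List.cons.injEq, mem_ofPred_eq, mem_inter_iff, mem_union, mem_iInter,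
          mem_compl_iff]
        constructor
        · rintro ⟨h1, h2⟩
          refine ⟨h2, ?_⟩
          rw [h2] at h1
          by_cases hne : {n | x ∈ S π (n :: t)}.Nonempty
          · left
            have h3 := Nat.sInf_mem hne
            refine ⟨?_, fun m hm => ?_⟩
            · rw [← h1]; exact h3
            · have := Nat.sInf_le (s := {n | x ∈ S π (n :: t)}) hm
              have h4 := m.2
              unfold next at h1
              omega
          · right
            rw [not_nonempty_iff_eq_empty] at hne
            refine ⟨?_, fun m hm => ?_⟩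
            · rw [← h1]
              unfold next
              rw [hne]
              exact Nat.sInf_empty
            · have : m ∈ {n | x ∈ S π (n :: t)} := hm
              rw [hne] at this
              exact this
        · rintro ⟨h2, h3⟩
          refine ⟨?_, h2⟩
          rw [h2]
          rcases h3 with ⟨h3, h4⟩ | ⟨h3, h4⟩
          · unfold next
            refine le_antisymm (Nat.sInf_le h3) ?_
            by_contra hlt
            push Not at hlt
            exact h4 ⟨_, hlt⟩ (Nat.sInf_mem (s := {n | x ∈ S π (n :: t)}) ⟨n, h3⟩)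
          · unfold next
            have : {n | x ∈ S π (n :: t)} = ∅ := by
              ext m
              simpa using h4 m
            rw [this, h3]
            exact Nat.sInf_empty
      rw [this]
      refine (ih t).inter (((hS _).inter (MeasurableSet.iInter fun m => (hS _).compl)).union
        ((MeasurableSet.const _).inter (MeasurableSet.iInter fun m => (hS _).compl)))

theorem measurableSet_T
    (hsat : ∀ U : Set X, IsOpen U → MeasurableSet {x | ∃ x', π x' = π x ∧ x' ∈ U}) :
    MeasurableSet (T π) := by
  have : T π = ⋂ k : ℕ, ⋃ s : List ℕ, ({x | L π x k = s} ∩ C X s) := by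
    ext x
    simp only [T, mem_ofPred_eq, mem_iInter, mem_iUnion, mem_inter_iff]
    refine forall_congr' fun k => ?_
    constructor
    · intro h
      exact ⟨_, rfl, h⟩
    · rintro ⟨s, rfl, h⟩
      exact h
  rw [this]
  exact MeasurableSet.iInter fun k => MeasurableSet.iUnion fun s =>
    (measurableSet_L π hsat k s).inter (isClosed_C s).measurableSet

end sel

/-- Orbits of continuous actions of Polish groups on Polish spaces are Borel. -/
theorem measurableSet_orbit (G : Type u) [Group G] [TopologicalSpace G] [IsTopologicalGroup G]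
    [PolishSpace G] (Y : Type v) [TopologicalSpace Y] [PolishSpace Y] [MulAction G Y]
    [ContinuousSMul G Y] (y : Y) : @MeasurableSet Y (borel Y) (MulAction.orbit G y) := by
  letI := upgradeIsCompletelyMetrizable G
  borelize G Y
  let π : G → Y := fun g => g • y
  have hπ : Continuous π := continuous_id.smul continuous_const
  have hsat : ∀ U : Set G, IsOpen U → MeasurableSet {x | ∃ x', π x' = π x ∧ x' ∈ U} := by
    intro U hU
    have : {x | ∃ x', π x' = π x ∧ x' ∈ U} =
        ⋃ h ∈ {h : G | h • y = y}, (fun x => x * h) ⁻¹' U := by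
      ext x
      simp only [mem_ofPred_eq, mem_iUnion, mem_preimage, exists_prop, π]
      constructor
      · rintro ⟨x', h1, h2⟩
        refine ⟨x⁻¹ * x', ?_, ?_⟩
        · rw [mul_smul, h1, inv_smul_smul]
        · simpa using h2
      · rintro ⟨h, h1, h2⟩
        exact ⟨x * h, by rw [mul_smul, h1], h2⟩
    rw [this]
    exact (isOpen_biUnion fun h _ => hU.preimage (continuous_mul_const h)).measurableSet
  have hT := measurableSet_T π hsat
  have himg : MulAction.orbit G y = π '' (T π) := by
    ext z
    constructor
    · rintro ⟨g, rfl⟩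
      obtain ⟨a, ha, haπ⟩ := exists_mem_T π (fun x => isClosed_singleton.preimage hπ) g
      exact ⟨a, ha, haπ⟩
    · rintro ⟨a, _, rfl⟩
      exact ⟨a, rfl⟩
  rw [himg]
  exact hT.image_of_continuousOn_injOn hπ.continuousOn (injOn_T π)

end Pool.Agent.W921.Sel
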