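import Pool.Agent.W921.Idl.Tree

set_option autoImplicit false

open MeasureTheory Set Order
open scoped Ordinal

namespace Pool.Agent.W921.Idl

theorem rank_lt_omega_one {α : Type} [Countable α] {r : α → α → Prop} {a : α} (h : Acc r a) :
    h.rank < ω₁ := by
  induction h with
  | intro a h ih =>
    rw [Acc.rank_eq]
    refine Ordinal.iSup_lt_omega_one ?_
    rintro ⟨b, hb⟩
    exact (Cardinal.isSuccLimit_omega 1).succ_lt (ih b hb)

theorem cls_eq_empty {α : Ordinal.{0}} (h : ω₁ ≤ α) : Cls α = ∅ := by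
  ext x
  simp only [mem_empty_iff_false, iff_false]
  rintro ⟨h', rfl⟩
  exact absurd (rank_lt_omega_one h') (not_lt.2 h)

theorem countable_Iio {α : Ordinal.{0}} (h : α < ω₁) : (Set.Iio α).Countable := by
  rw [← Cardinal.le_aleph0_iff_set_countable, Cardinal.mk_Iio_ordinal, Cardinal.lift_le_aleph0]
  exact Cardinal.lt_aleph_one_iff.1 (Cardinal.lt_omega_iff_card_lt.1 h)

theorem countable_Iic {α : Ordinal.{0}} (h : α < ω₁) : (Set.Iic α).Countable := by
  have : Set.Iic α = Set.Iio (Order.succ α) := by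
    ext β; simp
  rw [this]
  exact countable_Iio ((Cardinal.isSuccLimit_omega 1).succ_lt h)

/-- The node `j` has rank at most `α`. -/
def LE (x : X) (α : Ordinal.{0}) (j : ℕ) : Prop := ∃ h : Acc (R x) j, h.rank ≤ α

theorem LE_iff {x : X} {α : Ordinal.{0}} {j : ℕ} :
    LE x α j ↔ ∀ k, (x k : ℕ) = j → ∃ β ∈ Set.Iio α, LE x β (k + 1) := by
  constructor
  · rintro ⟨h, hle⟩ k hk
    have hR : R x (k + 1) j := ⟨k, rfl, hk⟩
    exact ⟨(h.inv hR).rank, lt_of_lt_of_le (Acc.rank_lt_of_rel h hR) hle, h.inv hR, le_rfl⟩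
  · intro h
    have hj : Acc (R x) j := Acc.intro j fun a ⟨k, hk, hk'⟩ => by
      subst hk
      obtain ⟨β, _, h', _⟩ := h k hk'
      exact h'
    refine ⟨hj, ?_⟩
    rw [Acc.rank_eq]
    refine Ordinal.iSup_le ?_
    rintro ⟨a, ⟨k, rfl, hk⟩⟩
    obtain ⟨β, hβ, h', hle⟩ := h k hk
    exact Order.succ_le_of_lt (lt_of_le_of_lt hle hβ)

theorem measurableSet_LE (α : Ordinal.{0}) (hα : α < ω₁) (j : ℕ) :
    MeasurableSet {x : X | LE x α j} := by
  induction α using WellFoundedLT.induction generalizing j with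
  | ind α ih =>
    have : {x : X | LE x α j} = ⋂ k : ℕ, ({x : X | (x k : ℕ) = j}ᶜ ∪
        ⋃ β ∈ Set.Iio α, {x : X | LE x β (k + 1)}) := by
      ext x
      simp only [mem_ofPred_eq, mem_iInter, mem_union, mem_compl_iff, mem_iUnion, LE_iff (α := α),
        imp_iff_not_or, exists_prop]
    rw [this]
    refine MeasurableSet.iInter fun k => (measurableSet_par k j).compl.union ?_
    exact MeasurableSet.biUnion (countable_Iio hα) fun β hβ => ih β hβ (lt_trans hβ hα) _

theorem measurableSet_cls {α : Ordinal.{0}} (hα : α < ω₁) : MeasurableSet (Cls α) := by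
  have : Cls α = {x : X | LE x α 0} \ ⋃ β ∈ Set.Iio α, {x : X | LE x β 0} := by
    ext x
    constructor
    · rintro ⟨h, rfl⟩
      refine ⟨⟨h, le_rfl⟩, ?_⟩
      simp only [mem_iUnion, not_exists]
      rintro β hβ ⟨_, hle⟩
      exact absurd hle (not_le.2 hβ)
    · rintro ⟨⟨h, hle⟩, h2⟩
      refine ⟨h, le_antisymm hle ?_⟩
      by_contra hlt
      apply h2
      simp only [mem_iUnion]
      exact ⟨h.rank, not_le.1 hlt, h, le_rfl⟩
  rw [this]
  exact (measurableSet_LE α hα 0).diff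
    (MeasurableSet.biUnion (countable_Iio hα) fun β hβ => measurableSet_LE β (lt_trans hβ hα) 0)

/-! ### Boundedness -/

/-- `s` is an initial segment of `a`. -/
def Pre (s : List ℕ) (a : ℕ → ℕ) : Prop := ∀ i (h : i < s.length), s[i] = a i

theorem pre_of_prefix {s t : List ℕ} (h : s <+: t) {a : ℕ → ℕ} (ht : Pre t a) : Pre s a := by
  intro i hi
  have := ht i (lt_of_lt_of_le hi h.length_le)
  rw [← this]
  exact h.getElem hi

/-- The tree of approximations. -/
def W (f : (ℕ → ℕ) → X) (p q : List ℕ × ℕ) : Prop :=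
  q.1 <+: p.1 ∧ ∀ a, Pre p.1 a → R (f a) p.2 q.2

theorem exists_pre_determines {f : (ℕ → ℕ) → X} (hf : Continuous f) (a : ℕ → ℕ) {i j : ℕ}
    (h : R (f a) i j) (s : List ℕ) (hs : Pre s a) :
    ∃ t, s <+: t ∧ Pre t a ∧ ∀ b, Pre t b → R (f b) i j := by
  obtain ⟨k, rfl, hk⟩ := h
  have hopen : IsOpen {b : ℕ → ℕ | f b k = f a k} :=
    (isOpen_discrete ({f a k} : Set (Fin (k + 1)))).preimage ((continuous_apply k).comp hf)
  obtain ⟨I, u, hu, hsub⟩ := isOpen_pi_iff.mp hopen a rfl
  let n := max s.length (I.sup id + 1)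
  refine ⟨List.ofFn (fun i : Fin n => a i), ?_, ?_, ?_⟩
  · rw [List.prefix_iff_getElem]
    refine ⟨by simp [n], fun i hi => ?_⟩
    simpa using hs i hi
  · intro i hi
    simp
  · intro b hb
    have hb' : b ∈ {b : ℕ → ℕ | f b k = f a k} := by
      apply hsub
      intro i hi
      have h1 : i ≤ I.sup id := Finset.le_sup (f := id) hi
      have h2 : i < (List.ofFn (fun i : Fin n => a i)).length := by
        simp only [List.length_ofFn, n]
        omega
      have h3 := hb i h2
      simp only [List.getElem_ofFn] at h3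
      rw [← h3]
      exact (hu i hi).2
    refine ⟨k, rfl, ?_⟩
    rw [show f b k = f a k from hb']
    exact hk

theorem acc_W {f : (ℕ → ℕ) → X} (h : ∀ a, Acc (R (f a)) 0) : Acc (W f) ([], 0) := by
  by_contra hcon
  obtain ⟨g, hg0, hg⟩ := not_acc_iff_exists_descending_chain.1 hcon
  have hpre : ∀ m n, m ≤ n → (g m).1 <+: (g n).1 := by
    intro m n hmn
    induction n, hmn using Nat.le_induction with
    | base => exact List.prefix_refl _
    | succ n _ ih => exact ih.trans (hg n).1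
  classical
  let a : ℕ → ℕ := fun i => if h : ∃ n, i < (g n).1.length then (g h.choose).1[i]'h.choose_spec
    else 0
  have ha : ∀ n, Pre (g n).1 a := by
    intro n i hi
    have hex : ∃ n, i < (g n).1.length := ⟨n, hi⟩
    simp only [a, dif_pos hex]
    rcases le_total n hex.choose with hle | hle
    · exact (hpre _ _ hle).getElem hi
    · exact ((hpre _ _ hle).getElem hex.choose_spec).symm
  refine (not_acc_iff_exists_descending_chain (r := R (f a)) (x := 0)).2
    ⟨fun n => (g n).2, by simp [hg0], fun n => (hg n).2 a (ha (n + 1))⟩ (h a)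

theorem rank_le_W {f : (ℕ → ℕ) → X} (hf : Continuous f) (a : ℕ → ℕ) {p : List ℕ × ℕ}
    (hp : Acc (W f) p) : Pre p.1 a → ∀ h : Acc (R (f a)) p.2, h.rank ≤ hp.rank := by
  induction hp with
  | intro p hp ih =>
    intro hpa h
    rw [Acc.rank_eq]
    refine Ordinal.iSup_le ?_
    rintro ⟨i, hi⟩
    obtain ⟨t, ht, hta, htd⟩ := exists_pre_determines hf a hi p.1 hpa
    have hW : W f (t, i) p := ⟨ht, htd⟩
    have h1 := ih (t, i) hW hta (h.inv hi)
    exact Order.succ_le_of_lt (lt_of_le_of_lt h1 (Acc.rank_lt_of_rel (Acc.intro p hp) hW))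

theorem boundedness {B : Set X} (hB : AnalyticSet B) (h : ∀ x ∈ B, Acc (R x) 0) :
    ∃ ρ < ω₁, ∀ x ∈ B, ∀ h : Acc (R x) 0, h.rank ≤ ρ := by
  rw [analyticSet_iff_exists_polishSpace_range] at hB
  rw [← analyticSet_iff_exists_polishSpace_range, AnalyticSet] at hB
  rcases hB with rfl | ⟨f, hf, rfl⟩
  · exact ⟨0, Ordinal.omega_pos 1, by simp⟩
  · have hW := acc_W (f := f) fun a => h _ (mem_range_self a)
    refine ⟨hW.rank, rank_lt_omega_one hW, ?_⟩
    rintro _ ⟨a, rfl⟩ h'
    exact rank_le_W hf a hW (fun i hi => by simp at hi) h'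

end Pool.Agent.W921.Idl
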