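import Pool.Agent.W921.Idl.Bound

set_option autoImplicit false

open MeasureTheory Set Order Filter Topology
open scoped Ordinal

namespace Pool.Agent.W921.Idl

/-- Tags: the ordinals up to `α`, with the discrete topology. -/
def Tag (α : Ordinal.{0}) : Type 1 := {β : Ordinal.{0} // β ≤ α}

instance (α : Ordinal.{0}) : TopologicalSpace (Tag α) := ⊥

instance (α : Ordinal.{0}) : DiscreteTopology (Tag α) := ⟨rfl⟩

theorem countable_tag {α : Ordinal.{0}} (h : α < ω₁) : Countable (Tag α) :=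
  (countable_Iic h).to_subtype

/-- Tagged trees. -/
def Z (α : Ordinal.{0}) : Type 1 :=
  {p : X × (ℕ → Tag α) // (p.2 0).1 = α ∧ ∀ k, (p.2 (k + 1)).1 < (p.2 (p.1 k)).1}

instance (α : Ordinal.{0}) : TopologicalSpace (Z α) := instTopologicalSpaceSubtype

variable {α : Ordinal.{0}}

/-- The tree. -/
def Z.x (w : Z α) : X := w.1.1

/-- The tags. -/
def Z.h (w : Z α) (i : ℕ) : Ordinal.{0} := (w.1.2 i).1

theorem Z.h_zero (w : Z α) : w.h 0 = α := w.2.1

theorem Z.h_lt (w : Z α) (k : ℕ) : w.h (k + 1) < w.h (w.x k) := w.2.2 k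

theorem continuous_Zx : Continuous (Z.x : Z α → X) := continuous_fst.comp continuous_subtype_val

theorem continuous_Ztag (i : ℕ) : Continuous (fun w : Z α => w.1.2 i) :=
  (continuous_apply i).comp (continuous_snd.comp continuous_subtype_val)

theorem polish_Z (hα : α < ω₁) : PolishSpace (Z α) := by
  have := countable_tag hα
  have hc : IsClosed {p : X × (ℕ → Tag α) | (p.2 0).1 = α ∧
      ∀ k, (p.2 (k + 1)).1 < (p.2 (p.1 k)).1} := by
    have hc0 : Continuous (fun p : X × (ℕ → Tag α) => p.2 0) :=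
      (continuous_apply 0).comp continuous_snd
    have h1 : IsClosed {p : X × (ℕ → Tag α) | (p.2 0).1 = α} :=
      (isClosed_discrete {t : Tag α | t.1 = α}).preimage hc0
    have : {p : X × (ℕ → Tag α) | (p.2 0).1 = α ∧
        ∀ k, (p.2 (k + 1)).1 < (p.2 (p.1 k)).1} = {p : X × (ℕ → Tag α) | (p.2 0).1 = α} ∩
        ⋂ k : ℕ, ⋂ j : Fin (k + 1), ({p : X × (ℕ → Tag α) | p.1 k = j}ᶜ ∪
          {p : X × (ℕ → Tag α) | (p.2 (k + 1)).1 < (p.2 j).1}) := by
      ext p
      simp only [mem_ofPred_eq, mem_iInter, mem_union, mem_compl_iff, mem_inter_iff]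
      refine and_congr Iff.rfl ?_
      constructor
      · intro h k j
        by_cases hj : p.1 k = j
        · right
          rw [← hj]
          exact h k
        · left
          exact hj
      · intro h k
        rcases h k (p.1 k) with h | h
        · exact absurd rfl h
        · exact h
    rw [this]
    refine h1.inter ?_
    refine isClosed_iInter fun k => isClosed_iInter fun j => IsClosed.union ?_ ?_
    · have hk : Continuous (fun p : X × (ℕ → Tag α) => p.1 k) :=
        (continuous_apply k).comp continuous_fst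
      exact ((isOpen_discrete ({j} : Set (Fin (k + 1)))).preimage hk).isClosed_compl
    · have hkj : Continuous (fun p : X × (ℕ → Tag α) => (p.2 (k + 1), p.2 j)) :=
        ((continuous_apply (k + 1)).comp continuous_snd).prodMk
          ((continuous_apply (j : ℕ)).comp continuous_snd)
      exact (isClosed_discrete {t : Tag α × Tag α | t.1.1 < t.2.1}).preimage hkj
  exact hc.polishSpace

/-- Constructor of tagged trees. -/
theorem exists_Z (x : X) (h : ℕ → Ordinal.{0}) (h0 : h 0 = α) (hlt : ∀ k, h (k + 1) < h (x k)) :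
    ∃ w : Z α, w.x = x ∧ ∀ i, w.h i = h i := by
  have hle : ∀ i, h i ≤ α := by
    intro i
    induction i using Nat.strong_induction_on with
    | _ i ih =>
      rcases i with _ | k
      · exact h0.le
      · exact (hlt k).le.trans (ih _ (x k).2)
  exact ⟨⟨(x, fun i => ⟨h i, hle i⟩), h0, hlt⟩, rfl, fun _ => rfl⟩

theorem nonempty_Z (hα : 0 < α) : Nonempty (Z α) := by
  obtain ⟨w, -, -⟩ := exists_Z (α := α) (fun _ => 0) (fun i => if i = 0 then α else 0) (by simp)
    (fun k => by simpa using hα)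
  exact ⟨w⟩

/-- Basic open sets. -/
def cyl (w : Z α) (n : ℕ) : Set (Z α) := {v | (∀ i < n, v.x i = w.x i) ∧ ∀ i ≤ n, v.h i = w.h i}

theorem mem_cyl_self (w : Z α) (n : ℕ) : w ∈ cyl w n := ⟨fun _ _ => rfl, fun _ _ => rfl⟩

theorem cyl_mono (w : Z α) {m n : ℕ} (h : m ≤ n) : cyl w n ⊆ cyl w m :=
  fun _ hv => ⟨fun i hi => hv.1 i (hi.trans_le h), fun i hi => hv.2 i (hi.trans h)⟩

theorem cyl_eq {w v : Z α} {n : ℕ} (h : v ∈ cyl w n) : cyl v n = cyl w n := by
  ext u
  constructor
  · intro hu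
    exact ⟨fun i hi => (hu.1 i hi).trans (h.1 i hi), fun i hi => (hu.2 i hi).trans (h.2 i hi)⟩
  · intro hu
    exact ⟨fun i hi => (hu.1 i hi).trans (h.1 i hi).symm,
      fun i hi => (hu.2 i hi).trans (h.2 i hi).symm⟩

theorem cyl_subset {w v : Z α} {n m : ℕ} (h : v ∈ cyl w n) (hm : n ≤ m) : cyl v m ⊆ cyl w n := by
  rw [← cyl_eq h]
  exact cyl_mono v hm

theorem isOpen_cyl (w : Z α) (n : ℕ) : IsOpen (cyl w n) := by
  have : cyl w n = (⋂ i ∈ Finset.range n, {v : Z α | v.x i = w.x i}) ∩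
      ⋂ i ∈ Finset.range (n + 1), {v : Z α | v.1.2 i = w.1.2 i} := by
    ext v
    simp only [cyl, mem_ofPred_eq, mem_inter_iff, mem_iInter, Finset.mem_range, Nat.lt_succ_iff]
    refine and_congr Iff.rfl ?_
    refine forall_congr' fun i => forall_congr' fun _ => ?_
    exact Subtype.ext_iff.symm
  rw [this]
  refine (isOpen_biInter_finset fun i _ => ?_).inter (isOpen_biInter_finset fun i _ => ?_)
  · exact (isOpen_discrete ({w.x i} : Set (Fin (i + 1)))).preimage
      ((continuous_apply i).comp continuous_Zx)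
  · exact (isOpen_discrete ({w.1.2 i} : Set (Tag α))).preimage (continuous_Ztag i)

theorem exists_cyl {U : Set (Z α)} (hU : IsOpen U) {w : Z α} (hw : w ∈ U) :
    ∃ n, ∀ m, n ≤ m → cyl w m ⊆ U := by
  obtain ⟨V, hV, rfl⟩ := isOpen_induced_iff.1 hU
  obtain ⟨A, B, hA, hB, hxA, hhB, hsub⟩ := isOpen_prod_iff.1 hV w.1.1 w.1.2 hw
  obtain ⟨I, u, hu, hI⟩ := isOpen_pi_iff.mp hA _ hxA
  obtain ⟨J, v, hv, hJ⟩ := isOpen_pi_iff.mp hB _ hhB
  refine ⟨max (I.sup id + 1) (J.sup id + 1), fun m hm z hz => hsub ⟨hI ?_, hJ ?_⟩⟩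
  · intro i hi
    have h1 : i ≤ I.sup id := Finset.le_sup (f := id) hi
    have h2 := hz.1 i (by omega)
    have h3 : z.1.1 i = w.1.1 i := h2
    rw [h3]
    exact (hu i hi).2
  · intro i hi
    have h1 : i ≤ J.sup id := Finset.le_sup (f := id) hi
    have h2 := hz.2 i (by omega)
    have h3 : z.1.2 i = w.1.2 i := Subtype.ext h2
    rw [h3]
    exact (hv i hi).2

/-- `B` is comeagre in the basic open set. -/
def Frc (w : Z α) (n : ℕ) (B : Set X) : Prop :=
  ∀ᶠ v in residual (Z α), v ∈ cyl w n → v.x ∈ B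

theorem Frc.mono_cyl {w v : Z α} {n m : ℕ} {B : Set X} (h : Frc w n B) (hs : cyl v m ⊆ cyl w n) :
    Frc v m B := by
  filter_upwards [h] with u hu hu'
  exact hu (hs hu')

theorem frc_congr {w v : Z α} {n : ℕ} (h : v ∈ cyl w n) (B : Set X) : Frc v n B ↔ Frc w n B := by
  unfold Frc
  rw [cyl_eq h]

theorem frc_iInter {w : Z α} {n : ℕ} {B : ℕ → Set X} :
    Frc w n (⋂ k, B k) ↔ ∀ k, Frc w n (B k) := by
  unfold Frc
  rw [← eventually_countable_forall]
  refine eventually_congr (Eventually.of_forall fun v => ?_)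
  simp only [mem_iInter]
  exact ⟨fun h k hv => h hv k, fun h hv k => h k hv⟩

theorem frc_exists (hα : α < ω₁) {w : Z α} {n : ℕ} {P : Z α → Prop}
    (h : ∀ᶠ v in residual (Z α), v ∈ cyl w n → P v) : ∃ v ∈ cyl w n, P v := by
  have := polish_Z hα
  have hd : Dense {v : Z α | v ∈ cyl w n → P v} := dense_of_mem_residual h
  obtain ⟨v, hv1, hv2⟩ := hd.inter_open_nonempty _ (isOpen_cyl w n) ⟨w, mem_cyl_self w n⟩
  exact ⟨v, hv1, hv2 hv1⟩

theorem frc_compl (hα : α < ω₁) {w : Z α} {n : ℕ} {B : Set X} (hB : MeasurableSet B) :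
    Frc w n Bᶜ ↔ ∀ v ∈ cyl w n, ∀ m, n ≤ m → ¬ Frc v m B := by
  have := polish_Z hα
  constructor
  · intro h v hv m hm hv2
    have h1 := h.mono_cyl (cyl_subset hv hm)
    obtain ⟨u, _, hu1, hu2⟩ := frc_exists (w := v) (n := m)
      (P := fun u => u.x ∈ B ∧ u.x ∈ Bᶜ) hα (by
        filter_upwards [h1, hv2] with u hu1 hu2 hu3
        exact ⟨hu2 hu3, hu1 hu3⟩)
    exact hu2 hu1
  · intro h
    borelize (Z α)
    have hB' : MeasurableSet (Z.x ⁻¹' B : Set (Z α)) := continuous_Zx.measurable hB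
    obtain ⟨U, hU, hUB⟩ := hB'.residualEq_isOpen
    have hempty : ∀ v ∈ cyl w n, v ∉ U := by
      intro v hv hvU
      obtain ⟨m, hm⟩ := exists_cyl hU hvU
      refine h v hv (max n m) (le_max_left _ _) ?_
      filter_upwards [hUB] with u hu hu'
      have hu2 : u ∈ U := hm _ (le_max_right _ _) hu'
      exact (iff_of_eq hu).2 hu2
    filter_upwards [hUB] with u hu hu' hu2
    exact hempty u hu' ((iff_of_eq hu).1 hu2)

end Pool.Agent.W921.Idl
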