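import Pool.Agent.W921.Idl.Cat

set_option autoImplicit false

open MeasureTheory Set Order Filter Topology
open scoped Ordinal

namespace Pool.Agent.W921.Idl

variable {α α' : Ordinal.{0}}

/-- Agreement up to `γ`. -/
def Agr (γ : Ordinal.{0}) (w : Z α) (w' : Z α') (n : ℕ) : Prop :=
  (∀ i < n, w'.x i = w.x i) ∧ ∀ i ≤ n, w'.h i = w.h i ∨ (γ ≤ w'.h i ∧ γ ≤ w.h i)

theorem Agr.symm {γ : Ordinal.{0}} {w : Z α} {w' : Z α'} {n : ℕ} (h : Agr γ w w' n) :
    Agr γ w' w n :=
  ⟨fun i hi => (h.1 i hi).symm, fun i hi => (h.2 i hi).imp Eq.symm And.symm⟩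

theorem Agr.mono {γ δ : Ordinal.{0}} {w : Z α} {w' : Z α'} {n : ℕ} (h : Agr γ w w' n)
    (hδ : δ ≤ γ) : Agr δ w w' n :=
  ⟨h.1, fun i hi => (h.2 i hi).imp id fun h => ⟨hδ.trans h.1, hδ.trans h.2⟩⟩

theorem exists_bound (γ : Ordinal.{0}) (t : ℕ → Ordinal.{0}) (m : ℕ) :
    ∃ M : ℕ, ∀ i ≤ m, t i < γ + ω → t i < γ + M := by
  have h1 : ∀ i, ∃ M : ℕ, t i < γ + ω → t i < γ + M := by
    intro i
    by_cases h : t i < γ + ω
    · obtain ⟨d, hd, hd'⟩ := (Ordinal.lt_add_iff_of_isSuccLimit Ordinal.isSuccLimit_omega0).1 h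
      obtain ⟨M, rfl⟩ := Ordinal.lt_omega0.1 hd
      exact ⟨M, fun _ => hd'⟩
    · exact ⟨0, fun h' => absurd h' h⟩
  choose M hM using h1
  refine ⟨(Finset.range (m + 1)).sup M, fun i hi h => (hM i h).trans_le ?_⟩
  have : M i ≤ (Finset.range (m + 1)).sup M :=
    Finset.le_sup (f := M) (Finset.mem_range.2 (by omega))
  gcongr

theorem Agr.extend {γ : Ordinal.{0}} (hα' : 0 < α') {w : Z α} {w' : Z α'} {n : ℕ}
    (h : Agr (γ + ω) w w' n) {v : Z α} (hv : v ∈ cyl w n) {m : ℕ} (hm : n ≤ m) :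
    ∃ v' ∈ cyl w' n, Agr γ v v' m := by
  classical
  obtain ⟨M, hM⟩ := exists_bound γ v.h m
  have hγω : ∀ k : ℕ, γ + k < γ + ω := fun k =>
    (add_lt_add_iff_left γ).2 (Ordinal.natCast_lt_omega0 k)
  let y : X := fun i => if i < m then v.x i else 0
  let g : ℕ → Ordinal.{0} := fun i =>
    if i ≤ n then w'.h i else if i ≤ m then
      (if v.h i < γ + ω then v.h i else γ + ((M + (m - i) : ℕ) : Ordinal.{0})) else 0
  have hg1 : ∀ i, i ≤ n → g i = w'.h i := fun i hi => by simp only [g, if_pos hi]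
  have hg2 : ∀ i, n < i → i ≤ m → v.h i < γ + ω → g i = v.h i := fun i hi hi2 hi3 => by
    simp only [g, if_neg (not_le.2 hi), if_pos hi2, if_pos hi3]
  have hg3 : ∀ i, n < i → i ≤ m → ¬ v.h i < γ + ω →
      g i = γ + ((M + (m - i) : ℕ) : Ordinal.{0}) := fun i hi hi2 hi3 => by
    simp only [g, if_neg (not_le.2 hi), if_pos hi2, if_neg hi3]
  have hg4 : ∀ i, m < i → g i = 0 := fun i hi => by
    simp only [g, if_neg (show ¬ i ≤ n by omega), if_neg (show ¬ i ≤ m by omega)]
  have hwv : ∀ i, i ≤ n → (w'.h i = v.h i ∨ (γ + ω ≤ w'.h i ∧ γ + ω ≤ v.h i)) := by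
    intro i hi
    rw [hv.2 i hi]
    exact h.2 i hi
  have hlt : ∀ k, g (k + 1) < g (y k) := by
    intro k
    have hyk : (y k : ℕ) ≤ k := Nat.lt_succ_iff.1 (y k).2
    by_cases hkm : k < m
    · have hy : y k = v.x k := by simp only [y, if_pos hkm]
      rw [hy] at hyk ⊢
      have hvk := v.h_lt k
      generalize hi : ((v.x k : Fin (k + 1)) : ℕ) = i at *
      by_cases hkn : k + 1 ≤ n
      · rw [hg1 _ hkn, hg1 i (by omega)]
        have h1 := w'.h_lt k
        rw [h.1 k (by omega), ← hv.1 k (by omega), hi] at h1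
        exact h1
      · push Not at hkn
        by_cases hin : i ≤ n
        · rw [hg1 i hin]
          by_cases hb : v.h (k + 1) < γ + ω
          · rw [hg2 _ hkn (by omega) hb]
            rcases hwv i hin with h2 | ⟨h2, h3⟩
            · rw [h2]; exact hvk
            · exact hb.trans_le h2
          · rw [hg3 _ hkn (by omega) hb]
            have h2 : γ + ω ≤ w'.h i := by
              rcases hwv i hin with h2 | ⟨h2, h3⟩
              · rw [h2]; exact (not_lt.1 hb).trans hvk.le
              · exact h2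
            exact (hγω _).trans_le h2
        · push Not at hin
          by_cases hb : v.h i < γ + ω
          · rw [hg2 i hin (by omega) hb, hg2 _ hkn (by omega) (hvk.trans hb)]
            exact hvk
          · rw [hg3 i hin (by omega) hb]
            by_cases hb2 : v.h (k + 1) < γ + ω
            · rw [hg2 _ hkn (by omega) hb2]
              refine (hM _ (by omega) hb2).trans_le ?_
              gcongr
              omega
            · rw [hg3 _ hkn (by omega) hb2]
              refine (add_lt_add_iff_left γ).2 ?_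
              exact_mod_cast (show M + (m - (k + 1)) < M + (m - i) by omega)
    · have hy : y k = 0 := by simp only [y, if_neg hkm]
      rw [hy, hg4 _ (by omega)]
      have : ((0 : Fin (k + 1)) : ℕ) = 0 := rfl
      rw [this, hg1 0 (by omega), w'.h_zero]
      exact hα'
  obtain ⟨v', hx', hh'⟩ := exists_Z y g ((hg1 0 (Nat.zero_le _)).trans w'.h_zero) hlt
  refine ⟨v', ⟨fun i hi => ?_, fun i hi => ?_⟩, fun i hi => ?_, fun i hi => ?_⟩
  · rw [hx']
    simp only [y, if_pos (show i < m by omega)]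
    rw [hv.1 i hi, h.1 i hi]
  · rw [hh', hg1 i hi]
  · rw [hx']
    simp only [y, if_pos hi]
  · rw [hh']
    have hγ : γ ≤ γ + ω := le_self_add
    by_cases hin : i ≤ n
    · rw [hg1 i hin]
      exact (hwv i hin).imp id fun h => ⟨hγ.trans h.1, hγ.trans h.2⟩
    · push Not at hin
      by_cases hb : v.h i < γ + ω
      · left
        exact hg2 i hin hi hb
      · right
        rw [hg3 i hin hi hb]
        exact ⟨le_self_add, hγ.trans (not_lt.1 hb)⟩

end Pool.Agent.W921.Idl
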