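import Pool.Agent.W921.Idl.Ext

set_option autoImplicit false

open MeasureTheory Set Order Filter Topology TopologicalSpace
open scoped Ordinal

namespace Pool.Agent.W921.Idl

/-- The sets for which the comeagreness in the basic open sets is uniformly Borel. -/
structure Good (A : Set (X × X)) : Prop where
  meas : MeasurableSet A
  frc : ∀ α : Ordinal.{0}, 0 < α → α < ω₁ → ∀ (w : Z α) (n : ℕ),
    MeasurableSet {p : X | Frc w n {y | (p, y) ∈ A}}
  unif : ∃ γ : Ordinal.{0}, γ < ω₁ ∧ ∀ α α' : Ordinal.{0}, 0 < α → α < ω₁ → 0 < α' → α' < ω₁ →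
    ∀ (w : Z α) (w' : Z α') (n : ℕ), Agr γ w w' n →
      ∀ p, Frc w n {y | (p, y) ∈ A} ↔ Frc w' n {y | (p, y) ∈ A}

theorem measurableSet_section {A : Set (X × X)} (hA : MeasurableSet A) (p : X) :
    MeasurableSet {y | (p, y) ∈ A} := measurable_prodMk_left hA

theorem add_omega_lt {γ : Ordinal.{0}} (h : γ < ω₁) : γ + ω < ω₁ :=
  Ordinal.isPrincipal_add_omega 1 h Ordinal.omega0_lt_omega_one

theorem Good.compl {A : Set (X × X)} (h : Good A) : Good Aᶜ := by
  classical
  refine ⟨h.meas.compl, ?_, ?_⟩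
  · intro α h0 h1 w n
    have := polish_Z h1
    have : Nonempty (Z α) := ⟨w⟩
    have key : {p : X | Frc w n {y | (p, y) ∈ Aᶜ}} = ⋂ k : ℕ, ⋂ m : ℕ,
        (if denseSeq (Z α) k ∈ cyl w n ∧ n ≤ m then
          {p : X | Frc (denseSeq (Z α) k) m {y | (p, y) ∈ A}}ᶜ else univ) := by
      ext p
      have hc := frc_compl h1 (w := w) (n := n) (measurableSet_section h.meas p)
      constructor
      · intro hp
        simp only [mem_iInter]
        intro k m
        split_ifs with hkm
        · exact hc.1 hp _ hkm.1 m hkm.2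
        · exact mem_univ _
      · intro hp
        refine hc.2 fun v hv m hm hF => ?_
        obtain ⟨_, hu, ⟨k, rfl⟩⟩ := (denseRange_denseSeq (Z α)).inter_open_nonempty _ (isOpen_cyl v m)
          ⟨v, mem_cyl_self v m⟩
        simp only [mem_iInter] at hp
        have := hp k m
        rw [if_pos ⟨cyl_subset hv hm hu, hm⟩] at this
        exact this ((frc_congr hu _).2 hF)
    rw [key]
    refine MeasurableSet.iInter fun k => MeasurableSet.iInter fun m => ?_
    split_ifs
    · exact (h.frc α h0 h1 _ _).compl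
    · exact MeasurableSet.univ
  · obtain ⟨γ, hγ, hu⟩ := h.unif
    refine ⟨γ + ω, add_omega_lt hγ, ?_⟩
    have one : ∀ α α' : Ordinal.{0}, 0 < α → α < ω₁ → 0 < α' → α' < ω₁ →
        ∀ (w : Z α) (w' : Z α') (n : ℕ), Agr (γ + ω) w w' n →
          ∀ p, Frc w n {y | (p, y) ∈ Aᶜ} → Frc w' n {y | (p, y) ∈ Aᶜ} := by
      intro α α' h0 h1 h0' h1' w w' n hag p hF
      have hc := frc_compl h1 (w := w) (n := n) (measurableSet_section h.meas p)
      have hc' := frc_compl h1' (w := w') (n := n) (measurableSet_section h.meas p)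
      refine hc'.2 fun v' hv' m hm hF' => ?_
      obtain ⟨v, hv, hag'⟩ := hag.symm.extend h0 hv' hm
      exact hc.1 hF v hv m hm ((hu α' α h0' h1' h0 h1 v' v m hag' p).1 hF')
    intro α α' h0 h1 h0' h1' w w' n hag p
    exact ⟨one α α' h0 h1 h0' h1' w w' n hag p, one α' α h0' h1' h0 h1 w' w n hag.symm p⟩

theorem Good.iInter {A : ℕ → Set (X × X)} (h : ∀ k, Good (A k)) : Good (⋂ k, A k) := by
  have hsec : ∀ p : X, {y | (p, y) ∈ ⋂ k, A k} = ⋂ k, {y | (p, y) ∈ A k} := by
    intro p; ext y; simp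
  refine ⟨MeasurableSet.iInter fun k => (h k).meas, ?_, ?_⟩
  · intro α h0 h1 w n
    have : {p : X | Frc w n {y | (p, y) ∈ ⋂ k, A k}} =
        ⋂ k, {p : X | Frc w n {y | (p, y) ∈ A k}} := by
      ext p
      rw [mem_ofPred_eq, hsec, frc_iInter]
      simp
    rw [this]
    exact MeasurableSet.iInter fun k => (h k).frc α h0 h1 w n
  · choose γ hγ hu using fun k => (h k).unif
    refine ⟨⨆ k, γ k, Ordinal.iSup_lt_omega_one hγ, ?_⟩
    intro α α' h0 h1 h0' h1' w w' n hag p
    rw [hsec, frc_iInter, frc_iInter]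
    exact forall_congr' fun k => hu k α α' h0 h1 h0' h1' w w' n
      (hag.mono (Ordinal.le_iSup γ k)) p

theorem Good.iUnion {A : ℕ → Set (X × X)} (h : ∀ k, Good (A k)) : Good (⋃ k, A k) := by
  have : (⋃ k, A k) = (⋂ k, (A k)ᶜ)ᶜ := by simp [compl_iInter]
  rw [this]
  exact (Good.iInter fun k => (h k).compl).compl

theorem frc_univ {α : Ordinal.{0}} (w : Z α) (n : ℕ) : Frc w n univ :=
  Eventually.of_forall fun _ _ => mem_univ _

theorem not_frc_empty {α : Ordinal.{0}} (h1 : α < ω₁) (w : Z α) (n : ℕ) : ¬ Frc w n ∅ := by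
  intro h
  obtain ⟨v, _, hv⟩ := frc_exists (w := w) (n := n) (P := fun v => v.x ∈ (∅ : Set X)) h1 h
  exact hv

theorem good_fst {U : Set X} (hU : MeasurableSet U) : Good {p : X × X | p.1 ∈ U} := by
  have key : ∀ α : Ordinal.{0}, α < ω₁ → ∀ (w : Z α) (n : ℕ) (p : X),
      Frc w n {y | (p, y) ∈ {p : X × X | p.1 ∈ U}} ↔ p ∈ U := by
    intro α h1 w n p
    by_cases hp : p ∈ U
    · have : {y : X | (p, y) ∈ {p : X × X | p.1 ∈ U}} = univ := by
        ext y; simp [hp]
      rw [this]
      exact ⟨fun _ => hp, fun _ => frc_univ w n⟩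
    · have : {y : X | (p, y) ∈ {p : X × X | p.1 ∈ U}} = ∅ := by
        ext y; simp [hp]
      rw [this]
      exact ⟨fun h => absurd h (not_frc_empty h1 w n), fun h => absurd h hp⟩
  refine ⟨measurable_fst hU, ?_, ⟨0, Ordinal.omega_pos 1, ?_⟩⟩
  · intro α h0 h1 w n
    have : {p : X | Frc w n {y | (p, y) ∈ {p : X × X | p.1 ∈ U}}} = U := by
      ext p; exact key α h1 w n p
    rw [this]
    exact hU
  · intro α α' h0 h1 h0' h1' w w' n _ p
    rw [key α h1, key α' h1']

theorem frc_coord {α : Ordinal.{0}} (h1 : α < ω₁) (w : Z α) (n i : ℕ) (b : Fin (i + 1)) :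
    Frc w n {y | y i = b} ↔ ∀ v ∈ cyl w n, v.x i = b := by
  constructor
  · intro h v hv
    by_contra hne
    obtain ⟨u, hu, hub⟩ := frc_exists (w := v) (n := max n (i + 1)) (P := fun u => u.x i = b) h1
      (h.mono_cyl (cyl_subset hv (le_max_left _ _)))
    exact hne ((hu.1 i (by omega)).symm.trans hub)
  · intro h
    exact Eventually.of_forall fun v hv => h v hv

theorem good_snd (i : ℕ) (b : Fin (i + 1)) : Good {p : X × X | p.2 i = b} := by
  have hset : ∀ p : X, {y | (p, y) ∈ {p : X × X | p.2 i = b}} = {y : X | y i = b} := fun p => rfl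
  refine ⟨?_, ?_, ⟨0 + ω, add_omega_lt (Ordinal.omega_pos 1), ?_⟩⟩
  · have : Measurable (fun p : X × X => p.2 i) := (measurable_pi_apply i).comp measurable_snd
    exact this (measurableSet_singleton b)
  · intro α h0 h1 w n
    simp only [hset]
    exact MeasurableSet.const _
  · have one : ∀ α α' : Ordinal.{0}, 0 < α → α < ω₁ → 0 < α' → α' < ω₁ →
        ∀ (w : Z α) (w' : Z α') (n : ℕ), Agr (0 + ω) w w' n →
          Frc w n {y | y i = b} → Frc w' n {y | y i = b} := by
      intro α α' h0 h1 h0' h1' w w' n hag hF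
      rw [frc_coord h1] at hF
      rw [frc_coord h1']
      intro v' hv'
      obtain ⟨v, hv, hag'⟩ := hag.symm.extend h0 hv' (m := max n (i + 1)) (le_max_left _ _)
      rw [← hag'.1 i (by omega)]
      exact hF v hv
    intro α α' h0 h1 h0' h1' w w' n hag p
    rw [hset]
    exact ⟨one α α' h0 h1 h0' h1' w w' n hag, one α' α h0' h1' h0 h1 w' w n hag.symm⟩

theorem good_univ : Good (univ : Set (X × X)) := by
  have := good_fst (U := univ) MeasurableSet.univ
  simpa using this

/-- The sigma-algebra of good sets. -/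
@[instance_reducible] def goodSpace : MeasurableSpace (X × X) where
  MeasurableSet' A := Good A
  measurableSet_empty := by
    have := good_univ.compl
    simpa using this
  measurableSet_compl A h := h.compl
  measurableSet_iUnion A h := Good.iUnion h

theorem good_of_measurable {A : Set (X × X)} (hA : MeasurableSet A) : Good A := by
  have h1 : @Measurable (X × X) X goodSpace _ Prod.fst := by
    intro U hU
    exact good_fst hU
  have h2 : @Measurable (X × X) X goodSpace _ Prod.snd := by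
    refine @measurable_pi_lambda _ _ _ goodSpace _ _ fun i => ?_
    exact @measurable_to_countable' (Fin (i + 1)) (X × X) _ _ goodSpace (fun p => p.2 i)
      fun b => good_snd i b
  have h3 : @Measurable (X × X) (X × X) goodSpace _ (fun p => (p.1, p.2)) :=
    @Measurable.prodMk (X × X) goodSpace X X _ _ _ _ h1 h2
  exact h3 hA

/-! ### The generic rank -/

theorem rank_of_saturated {α : Ordinal.{0}} {w : Z α}
    (h : ∀ j, ∀ β < w.h j, ∃ k, (w.x k : ℕ) = j ∧ w.h (k + 1) = β) :
    ∀ (o : Ordinal.{0}) (j : ℕ), w.h j = o → ∃ hj : Acc (R w.x) j, hj.rank = o := by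
  intro o
  induction o using WellFoundedLT.induction with
  | ind o ih =>
    intro j hj
    have hch : ∀ a, R w.x a j → ∃ ha : Acc (R w.x) a, ha.rank = w.h a := by
      rintro a ⟨k, rfl, hk⟩
      have := w.h_lt k
      rw [hk, hj] at this
      exact ih _ this _ rfl
    have hacc : Acc (R w.x) j := Acc.intro j fun a ha => (hch a ha).choose
    refine ⟨hacc, le_antisymm ?_ ?_⟩
    · rw [Acc.rank_eq]
      refine Ordinal.iSup_le ?_
      rintro ⟨a, ha⟩
      obtain ⟨ha', hr⟩ := hch a ha
      obtain ⟨k, rfl, hk⟩ := ha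
      refine Order.succ_le_of_lt ?_
      have h1 := w.h_lt k
      rw [hk, hj] at h1
      rw [← hr] at h1
      exact h1
    · refine le_of_forall_lt fun β hβ => ?_
      rw [← hj] at hβ
      obtain ⟨k, hk, hk'⟩ := h j β hβ
      have hR : R w.x (k + 1) j := ⟨k, rfl, hk⟩
      obtain ⟨ha', hr⟩ := hch _ hR
      rw [← hk', ← hr]
      exact Acc.rank_lt_of_rel hacc hR

theorem dense_saturated {α : Ordinal.{0}} (j : ℕ) (β : Ordinal.{0}) :
    Dense {w : Z α | β < w.h j → ∃ k, (w.x k : ℕ) = j ∧ w.h (k + 1) = β} := by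
  classical
  rw [dense_iff_inter_open]
  rintro U hU ⟨w, hw⟩
  obtain ⟨n', hn'⟩ := exists_cyl hU hw
  obtain ⟨n, hn, hjn⟩ : ∃ n, n' ≤ n ∧ j ≤ n := ⟨max n' j, le_max_left _ _, le_max_right _ _⟩
  have hsub := hn' n hn
  by_cases hβ : β < w.h j
  · let y : X := fun i => if i < n then w.x i else if h : i = n then ⟨j, by omega⟩ else 0
    let g : ℕ → Ordinal.{0} := fun i => if i ≤ n then w.h i else if i = n + 1 then β else 0
    have hg1 : ∀ i ≤ n, g i = w.h i := fun i hi => by simp only [g, if_pos hi]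
    have hg2 : g (n + 1) = β := by
      simp only [g, if_neg (show ¬ n + 1 ≤ n by omega), if_true]
    have hg3 : ∀ i, n + 1 < i → g i = 0 := fun i hi => by
      simp only [g, if_neg (show ¬ i ≤ n by omega), if_neg (show ¬ i = n + 1 by omega)]
    have hα : 0 < α := by
      have h1 : ∀ i, w.h i ≤ α := fun i => (w.1.2 i).2
      exact lt_of_le_of_lt (zero_le (a := β)) (hβ.trans_le (h1 j))
    have hyn : ((y n : Fin (n + 1)) : ℕ) = j := by
      simp only [y, if_neg (lt_irrefl n), dite_true]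
    have hlt : ∀ k, g (k + 1) < g (y k) := by
      intro k
      rcases lt_trichotomy k n with hk | hk | hk
      · have hy : y k = w.x k := by simp only [y, if_pos hk]
        rw [hy, hg1 (k + 1) (by omega), hg1 _ (by have := (w.x k).2; omega)]
        exact w.h_lt k
      · subst hk
        rw [hyn, hg2, hg1 j hjn]
        exact hβ
      · have hy : y k = 0 := by
          simp only [y, if_neg (show ¬ k < n by omega), dif_neg (show ¬ k = n by omega)]
        rw [hy, hg3 (k + 1) (by omega)]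
        have : ((0 : Fin (k + 1)) : ℕ) = 0 := rfl
        rw [this, hg1 0 (by omega), w.h_zero]
        exact hα
    obtain ⟨v, hx, hh⟩ := exists_Z y g ((hg1 0 (Nat.zero_le _)).trans w.h_zero) hlt
    refine ⟨v, hsub ⟨fun i hi => ?_, fun i hi => ?_⟩, fun _ => ⟨n, ?_, ?_⟩⟩
    · rw [hx]
      simp only [y, if_pos hi]
    · rw [hh, hg1 i hi]
    · rw [hx, hyn]
    · rw [hh, hg2]
  · exact ⟨w, hw, fun h => absurd h hβ⟩

theorem isOpen_saturated {α : Ordinal.{0}} (j : ℕ) (β : Ordinal.{0}) :
    IsOpen {w : Z α | β < w.h j → ∃ k, (w.x k : ℕ) = j ∧ w.h (k + 1) = β} := by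
  have : {w : Z α | β < w.h j → ∃ k, (w.x k : ℕ) = j ∧ w.h (k + 1) = β} =
      {w : Z α | β < w.h j}ᶜ ∪ ⋃ k, ({w : Z α | (w.x k : ℕ) = j} ∩ {w : Z α | w.h (k + 1) = β}) := by
    ext w
    simp only [mem_ofPred_eq, mem_union, mem_compl_iff, mem_iUnion, mem_inter_iff, imp_iff_not_or]
  rw [this]
  refine IsOpen.union ?_ (isOpen_iUnion fun k => IsOpen.inter ?_ ?_)
  · exact (isOpen_discrete {t : Tag α | ¬ β < t.1}).preimage (continuous_Ztag j)
  · have hk : Continuous (fun w : Z α => w.x k) := (continuous_apply k).comp continuous_Zx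
    exact (isOpen_discrete {t : Fin (k + 1) | (t : ℕ) = j}).preimage hk
  · exact (isOpen_discrete {t : Tag α | t.1 = β}).preimage (continuous_Ztag (k + 1))

theorem generic_cls {α : Ordinal.{0}} (h1 : α < ω₁) :
    ∀ᶠ w in residual (Z α), w.x ∈ Cls α := by
  have hc : Countable (Set.Iio α) := (countable_Iio h1).to_subtype
  have h2 : ∀ᶠ w in residual (Z α), ∀ j : ℕ, ∀ β : Set.Iio α,
      β.1 < w.h j → ∃ k, (w.x k : ℕ) = j ∧ w.h (k + 1) = β.1 := by
    rw [eventually_countable_forall]
    intro j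
    rw [eventually_countable_forall]
    intro β
    exact residual_of_dense_open (isOpen_saturated j β.1) (dense_saturated j β.1)
  filter_upwards [h2] with w hw
  obtain ⟨h0, hr⟩ := rank_of_saturated (w := w) (fun j β hβ =>
    hw j ⟨β, hβ.trans_le (w.1.2 j).2⟩ hβ) α 0 w.h_zero
  exact ⟨h0, hr⟩

end Pool.Agent.W921.Idl
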