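import Pool.Agent.W921.Idl.Good

set_option autoImplicit false

open MeasureTheory Set Order Filter Topology
open scoped Ordinal

namespace Pool.Agent.W921.Idl

/-- `S` is small for the rank `α`. -/
def Small (α : Ordinal.{0}) (S : Set X) : Prop := ∀ᶠ w in residual (Z α), w.x ∉ S

theorem Small.mono {α : Ordinal.{0}} {S T : Set X} (h : Small α S) (hT : T ⊆ S) : Small α T := by
  filter_upwards [h] with w hw hw'
  exact hw (hT hw')

theorem Small.iUnion {α : Ordinal.{0}} {S : ℕ → Set X} (h : ∀ n, Small α (S n)) :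
    Small α (⋃ n, S n) := by
  have := eventually_countable_forall.2 h
  filter_upwards [this] with w hw
  simpa using hw

theorem small_iff_frc {α : Ordinal.{0}} (w : Z α) (S : Set X) : Small α S ↔ Frc w 0 Sᶜ := by
  have huniv : ∀ v : Z α, v ∈ cyl w 0 := by
    intro v
    refine ⟨fun i hi => absurd hi (Nat.not_lt_zero i), fun i hi => ?_⟩
    obtain rfl : i = 0 := Nat.le_zero.1 hi
    rw [v.h_zero, w.h_zero]
  unfold Small Frc
  refine eventually_congr (Eventually.of_forall fun v => ?_)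
  exact ⟨fun h _ => h, fun h => h (huniv v)⟩

theorem exists_generic {α : Ordinal.{0}} (h0 : 0 < α) (h1 : α < ω₁) {P : Z α → Prop}
    (h : ∀ᶠ w in residual (Z α), P w) : ∃ w, P w := by
  obtain ⟨w⟩ := nonempty_Z h0
  obtain ⟨v, _, hv⟩ := frc_exists (w := w) (n := 0) (P := P) h1 (by
    filter_upwards [h] with v hv _
    exact hv)
  exact ⟨v, hv⟩

theorem cls_nonempty {α : Ordinal.{0}} (h0 : 0 < α) (h1 : α < ω₁) : (Cls α).Nonempty := by
  obtain ⟨w, hw⟩ := exists_generic h0 h1 (generic_cls h1)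
  exact ⟨w.x, hw⟩

theorem cls_pos {x : X} {α : Ordinal.{0}} (h : x ∈ Cls α) : 0 < α := by
  obtain ⟨h, rfl⟩ := h
  have h0 : ((x 0 : Fin 1) : ℕ) = 0 := by
    have := (x 0).2
    omega
  have hR : R x 1 0 := ⟨0, rfl, h0⟩
  exact (zero_le (a := (h.inv hR).rank)).trans_lt (Acc.rank_lt_of_rel h hR)

theorem cls_lt {x : X} {α : Ordinal.{0}} (h : x ∈ Cls α) : α < ω₁ := by
  obtain ⟨h, rfl⟩ := h
  exact rank_lt_omega_one h

theorem cls_inj {α β : Ordinal.{0}} (h0 : 0 < α) (h1 : α < ω₁) (h : Cls α = Cls β) : α = β := by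
  obtain ⟨x, hx⟩ := cls_nonempty h0 h1
  exact cls_unique hx (h ▸ hx)

theorem cls_ne_ill {α : Ordinal.{0}} (h0 : 0 < α) (h1 : α < ω₁) : Cls α ≠ Ill := by
  intro h
  obtain ⟨x, hx⟩ := cls_nonempty h0 h1
  exact not_ill_of_cls hx (h ▸ hx)

theorem not_small_cls {α : Ordinal.{0}} (h0 : 0 < α) (h1 : α < ω₁) : ¬ Small α (Cls α) := by
  intro h
  obtain ⟨w, hw1, hw2⟩ := exists_generic h0 h1 (h.and (generic_cls h1))
  exact hw1 hw2

/-- The ideals. -/
def I (C : Set X) : Set (Set X) :=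
  {S | S ⊆ C ∧ ((∃ α : Ordinal.{0}, 0 < α ∧ α < ω₁ ∧ C = Cls α ∧ Small α S) ∨
    (C = Ill ∧ ∃ B : Set X, MeasurableSet B ∧ S ⊆ B ∧ ∃ γ : Ordinal.{0}, γ < ω₁ ∧
      ∀ α, γ ≤ α → 0 < α → α < ω₁ → Small α B))}

theorem mem_I_cls {α : Ordinal.{0}} (h0 : 0 < α) (h1 : α < ω₁) {S : Set X} :
    S ∈ I (Cls α) ↔ S ⊆ Cls α ∧ Small α S := by
  constructor
  · rintro ⟨hS, ⟨β, _, _, hβ, hs⟩ | ⟨h, _⟩⟩
    · rw [cls_inj h0 h1 hβ]
      exact ⟨by rw [← hβ]; exact hS, hs⟩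
    · exact absurd h (cls_ne_ill h0 h1)
  · rintro ⟨hS, hs⟩
    exact ⟨hS, Or.inl ⟨α, h0, h1, rfl, hs⟩⟩

theorem mem_I_ill {S : Set X} :
    S ∈ I Ill ↔ S ⊆ Ill ∧ ∃ B : Set X, MeasurableSet B ∧ S ⊆ B ∧ ∃ γ : Ordinal.{0}, γ < ω₁ ∧
      ∀ α, γ ≤ α → 0 < α → α < ω₁ → Small α B := by
  constructor
  · rintro ⟨hS, ⟨β, h0, h1, hβ, _⟩ | ⟨_, h⟩⟩
    · exact absurd hβ.symm (cls_ne_ill h0 h1)
    · exact ⟨hS, h⟩
  · rintro ⟨hS, h⟩
    exact ⟨hS, Or.inr ⟨rfl, h⟩⟩

/-- A Borel set disjoint from the ill-founded trees is bounded. -/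
theorem bounded_of_disjoint {B : Set X} (hB : MeasurableSet B) (h : ∀ x ∈ B, x ∉ Ill) :
    ∃ ρ : Ordinal.{0}, ρ < ω₁ ∧ ∀ α, ρ < α → ∀ x ∈ Cls α, x ∉ B := by
  obtain ⟨ρ, hρ, hb⟩ := boundedness (B := B) hB.analyticSet (fun x hx => not_not.1 (h x hx))
  refine ⟨ρ, hρ, ?_⟩
  rintro α hα x ⟨hx, rfl⟩ hxB
  exact absurd (hb x hxB hx) (not_le.2 hα)

theorem succ_lt_omega_one {α : Ordinal.{0}} (h : α < ω₁) : Order.succ α < ω₁ :=
  (Cardinal.isSuccLimit_omega 1).succ_lt h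

theorem ill_not_mem_I : Ill ∉ I Ill := by
  rw [mem_I_ill]
  rintro ⟨_, B, hB, hIB, γ, hγ, hsm⟩
  obtain ⟨ρ, hρ, hb⟩ := bounded_of_disjoint hB.compl (fun x hx hx' => hx (hIB hx'))
  have hα : max γ (Order.succ ρ) < ω₁ := max_lt hγ (succ_lt_omega_one hρ)
  have hρα : ρ < max γ (Order.succ ρ) := (Order.lt_succ ρ).trans_le (le_max_right _ _)
  have h0 : 0 < max γ (Order.succ ρ) := (zero_le (a := ρ)).trans_lt hρα
  obtain ⟨w, hw1, hw2⟩ := exists_generic h0 hα ((hsm _ (le_max_left _ _) h0 hα).and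
    (generic_cls hα))
  exact hb _ hρα _ hw2 hw1

theorem ill_not_measurable : ¬ MeasurableSet Ill := by
  intro h
  obtain ⟨ρ, hρ, hb⟩ := bounded_of_disjoint h.compl (fun x hx hx' => hx hx')
  have h1 := succ_lt_omega_one hρ
  have h0 : 0 < Order.succ ρ := (zero_le (a := ρ)).trans_lt (Order.lt_succ ρ)
  obtain ⟨x, hx⟩ := cls_nonempty h0 h1
  exact hb _ (Order.lt_succ ρ) x hx (not_ill_of_cls hx)

theorem ill_nonempty : (Ill).Nonempty := by
  by_contra h
  rw [not_nonempty_iff_eq_empty] at h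
  exact ill_not_measurable (h ▸ MeasurableSet.empty)

theorem I_sub {C S : Set X} (h : S ∈ I C) : S ⊆ C := h.1

theorem class_cases (x : X) : (∃ α : Ordinal.{0}, 0 < α ∧ α < ω₁ ∧ x ∈ Cls α ∧
    {y | E x y} = Cls α) ∨ (x ∈ Ill ∧ {y | E x y} = Ill) := by
  rcases mem_ill_or x with h | ⟨α, h⟩
  · exact Or.inr ⟨h, setOf_E_ill h⟩
  · exact Or.inl ⟨α, cls_pos h, cls_lt h, h, setOf_E_cls h⟩

theorem I_ideal (x : X) :
    (∀ S ∈ I {y | E x y}, S ⊆ {y | E x y}) ∧ ∅ ∈ I {y | E x y} ∧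
    (∀ S ∈ I {y | E x y}, ∀ T ⊆ S, T ∈ I {y | E x y}) ∧
    (∀ S : ℕ → Set X, (∀ n, S n ∈ I {y | E x y}) → (⋃ n, S n) ∈ I {y | E x y}) ∧
    {y | E x y} ∉ I {y | E x y} := by
  refine ⟨fun S hS => hS.1, ?_, ?_, ?_, ?_⟩
  · rcases class_cases x with ⟨α, h0, h1, _, hC⟩ | ⟨_, hC⟩ <;> rw [hC]
    · rw [mem_I_cls h0 h1]
      exact ⟨empty_subset _, Eventually.of_forall fun _ h => h⟩
    · rw [mem_I_ill]
      exact ⟨empty_subset _, ∅, MeasurableSet.empty, Subset.rfl, 0, Ordinal.omega_pos 1,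
        fun _ _ _ _ => Eventually.of_forall fun _ h => h⟩
  · rcases class_cases x with ⟨α, h0, h1, _, hC⟩ | ⟨_, hC⟩ <;> rw [hC]
    · intro S hS T hT
      rw [mem_I_cls h0 h1] at hS ⊢
      exact ⟨hT.trans hS.1, hS.2.mono hT⟩
    · intro S hS T hT
      rw [mem_I_ill] at hS ⊢
      obtain ⟨h, B, hB, hSB, h2⟩ := hS
      exact ⟨hT.trans h, B, hB, hT.trans hSB, h2⟩
  · rcases class_cases x with ⟨α, h0, h1, _, hC⟩ | ⟨_, hC⟩ <;> rw [hC]
    · intro S hS
      simp only [mem_I_cls h0 h1] at hS ⊢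
      exact ⟨iUnion_subset fun n => (hS n).1, Small.iUnion fun n => (hS n).2⟩
    · intro S hS
      simp only [mem_I_ill] at hS ⊢
      choose h B hB hSB γ hγ h2 using hS
      refine ⟨iUnion_subset h, ⋃ n, B n, MeasurableSet.iUnion hB, iUnion_mono hSB, ⨆ n, γ n,
        Ordinal.iSup_lt_omega_one hγ, fun α hα h0 h1 => Small.iUnion fun n => ?_⟩
      exact h2 n α ((Ordinal.le_iSup γ n).trans hα) h0 h1
  · rcases class_cases x with ⟨α, h0, h1, _, hC⟩ | ⟨_, hC⟩ <;> rw [hC]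
    · rw [mem_I_cls h0 h1]
      exact fun h => not_small_cls h0 h1 h.2
    · exact ill_not_mem_I

theorem mem_iff_cls {α : Ordinal.{0}} (h0 : 0 < α) (h1 : α < ω₁) {x : X} (hx : x ∈ Cls α)
    (A : Set (X × X)) :
    {y | E x y ∧ (x, y) ∈ A} ∈ I {y | E x y} ↔ Small α {y | (x, y) ∈ A} := by
  rw [setOf_E_cls hx, mem_I_cls h0 h1]
  constructor
  · rintro ⟨_, h⟩
    filter_upwards [h, generic_cls h1] with w hw hw2 hw3
    exact hw ⟨(E_cls hx _).2 hw2, hw3⟩
  · intro h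
    refine ⟨fun y hy => (E_cls hx y).1 hy.1, h.mono fun y hy => hy.2⟩

theorem mem_iff_ill {x : X} (hx : x ∈ Ill) {A : Set (X × X)} (hA : MeasurableSet A)
    {γ : Ordinal.{0}} (hγ0 : 0 < γ) (hγ : γ < ω₁)
    (hu : ∀ α, γ ≤ α → α < ω₁ → (Small α {y | (x, y) ∈ A} ↔ Small γ {y | (x, y) ∈ A})) :
    {y | E x y ∧ (x, y) ∈ A} ∈ I {y | E x y} ↔ Small γ {y | (x, y) ∈ A} := by
  rw [setOf_E_ill hx, mem_I_ill]
  have hAx := measurableSet_section hA x
  constructor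
  · rintro ⟨_, B, hB, hsub, δ, hδ, hsm⟩
    obtain ⟨ρ, hρ, hb⟩ := bounded_of_disjoint (hAx.diff hB)
      (fun y hy hy' => hy.2 (hsub ⟨(E_ill hx y).2 hy', hy.1⟩))
    have hα : max (max γ δ) (Order.succ ρ) < ω₁ := max_lt (max_lt hγ hδ) (succ_lt_omega_one hρ)
    have hρα : ρ < max (max γ δ) (Order.succ ρ) := (Order.lt_succ ρ).trans_le (le_max_right _ _)
    have h0 : 0 < max (max γ δ) (Order.succ ρ) := (zero_le (a := ρ)).trans_lt hρα
    refine (hu _ ((le_max_left _ _).trans (le_max_left _ _)) hα).1 ?_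
    filter_upwards [hsm _ ((le_max_right _ _).trans (le_max_left _ _)) h0 hα, generic_cls hα]
      with w hw1 hw2 hw3
    exact hb _ hρα _ hw2 ⟨hw3, hw1⟩
  · intro h
    refine ⟨fun y hy => (E_ill hx y).1 hy.1, _, hAx, fun y hy => hy.2, γ, hγ, ?_⟩
    intro α hα _ h1
    exact (hu α hα h1).2 h

theorem measurable_AI {A : Set (X × X)} (hA : MeasurableSet A) :
    MeasurableSet {x | {y | E x y ∧ (x, y) ∈ A} ∈ I {y | E x y}} := by
  have hG : Good Aᶜ := good_of_measurable hA.compl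
  obtain ⟨γ', hγ', hu'⟩ := hG.unif
  obtain ⟨γ, hγ0, hγ, hγγ⟩ : ∃ γ : Ordinal.{0}, 0 < γ ∧ γ < ω₁ ∧ γ' ≤ γ :=
    ⟨Order.succ γ', (zero_le (a := γ')).trans_lt (Order.lt_succ γ'), succ_lt_omega_one hγ',
      Order.le_succ γ'⟩
  have hmeas : ∀ α : Ordinal.{0}, 0 < α → α < ω₁ →
      MeasurableSet {x : X | Small α {y | (x, y) ∈ A}} := by
    intro α h0 h1
    obtain ⟨w⟩ := nonempty_Z h0
    have := hG.frc α h0 h1 w 0
    convert this using 1
    ext x
    exact small_iff_frc w _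
  have hu : ∀ x : X, ∀ α, γ ≤ α → α < ω₁ →
      (Small α {y | (x, y) ∈ A} ↔ Small γ {y | (x, y) ∈ A}) := by
    intro x α hα h1
    have h0 : 0 < α := hγ0.trans_le hα
    obtain ⟨w⟩ := nonempty_Z h0
    obtain ⟨w'⟩ := nonempty_Z hγ0
    rw [small_iff_frc w, small_iff_frc w']
    refine hu' α γ h0 h1 hγ0 hγ w w' 0 ⟨fun i hi => absurd hi (Nat.not_lt_zero i), ?_⟩ x
    intro i hi
    obtain rfl : i = 0 := Nat.le_zero.1 hi
    right
    rw [w.h_zero, w'.h_zero]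
    exact ⟨hγγ, hγγ.trans hα⟩
  have key : {x | {y | E x y ∧ (x, y) ∈ A} ∈ I {y | E x y}} =
      (⋃ α ∈ Set.Ioo 0 γ, (Cls α ∩ {x : X | Small α {y | (x, y) ∈ A}})) ∪
        ((⋃ α ∈ Set.Ioo 0 γ, Cls α)ᶜ ∩ {x : X | Small γ {y | (x, y) ∈ A}}) := by
    ext x
    rcases class_cases x with ⟨α, h0, h1, hx, _⟩ | ⟨hx, _⟩
    · rw [mem_ofPred_eq, mem_iff_cls h0 h1 hx]
      by_cases hαγ : α < γ
      · constructor
        · intro h
          left
          simp only [mem_iUnion]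
          exact ⟨α, ⟨h0, hαγ⟩, hx, h⟩
        · rintro (h | h)
          · simp only [mem_iUnion] at h
            obtain ⟨β, hβ, hx', h⟩ := h
            obtain rfl := cls_unique hx hx'
            exact h
          · exfalso
            apply h.1
            simp only [mem_iUnion]
            exact ⟨α, ⟨h0, hαγ⟩, hx⟩
      · push Not at hαγ
        rw [hu x α hαγ h1]
        have hn : ∀ β ∈ Set.Ioo 0 γ, x ∉ Cls β := by
          rintro β hβ hx'
          obtain rfl := cls_unique hx hx'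
          exact absurd hβ.2 (not_lt.2 hαγ)
        constructor
        · intro h
          right
          refine ⟨?_, h⟩
          simp only [mem_compl_iff, mem_iUnion, not_exists]
          exact hn
        · rintro (h | h)
          · simp only [mem_iUnion] at h
            obtain ⟨β, hβ, hx', _⟩ := h
            exact absurd hx' (hn β hβ)
          · exact h.2
    · rw [mem_ofPred_eq, mem_iff_ill hx hA hγ0 hγ (hu x)]
      have hn : ∀ β ∈ Set.Ioo 0 γ, x ∉ Cls β := fun β _ hx' => not_ill_of_cls hx' hx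
      constructor
      · intro h
        right
        refine ⟨?_, h⟩
        simp only [mem_compl_iff, mem_iUnion, not_exists]
        exact hn
      · rintro (h | h)
        · simp only [mem_iUnion] at h
          obtain ⟨β, hβ, hx', _⟩ := h
          exact absurd hx' (hn β hβ)
        · exact h.2
  rw [key]
  have hcount : (Set.Ioo 0 γ).Countable := (countable_Iio hγ).mono fun _ h => h.2
  refine (MeasurableSet.biUnion hcount fun α hα => ?_).union
    ((MeasurableSet.biUnion hcount fun α hα => ?_).compl.inter (hmeas γ hγ0 hγ))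
  · exact (measurableSet_cls (hα.2.trans hγ)).inter (hmeas α hα.1 (hα.2.trans hγ))
  · exact measurableSet_cls (hα.2.trans hγ)

end Pool.Agent.W921.Idl
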