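import Mathlib

set_option autoImplicit false

open MeasureTheory Set Order

namespace Pool.Agent.W921.Idl

/-- The space of trees on the natural numbers: `x n` is the parent of the node `n + 1`, and `0` is
the root. -/
abbrev X : Type := (n : ℕ) → Fin (n + 1)

/-- `R x a b`: the node `a` is a child of the node `b`. -/
def R (x : X) (a b : ℕ) : Prop := ∃ k, a = k + 1 ∧ (x k : ℕ) = b

theorem R_lt {x : X} {a b : ℕ} (h : R x a b) : b < a := by
  obtain ⟨k, rfl, rfl⟩ := h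
  exact (x k).2

/-- `x` is simulated by `y`. -/
def Sim (x y : X) : Prop :=
  ∃ S : ℕ × ℕ → Bool, S (0, 0) = true ∧
    ∀ i j, S (i, j) = true → ∀ k, (x k : ℕ) = i → ∃ l, (y l : ℕ) = j ∧ S (k + 1, l + 1) = true

theorem Sim.refl (x : X) : Sim x x := by
  refine ⟨fun p => decide (p.1 = p.2), by simp, ?_⟩
  intro i j hij k hk
  simp only [decide_eq_true_eq] at hij
  subst hij
  exact ⟨k, hk, by simp⟩

theorem Sim.trans {x y z : X} (h1 : Sim x y) (h2 : Sim y z) : Sim x z := by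
  classical
  obtain ⟨S, hS0, hS⟩ := h1
  obtain ⟨T, hT0, hT⟩ := h2
  refine ⟨fun p => decide (∃ j, S (p.1, j) = true ∧ T (j, p.2) = true), by simpa using ⟨0, hS0, hT0⟩,
    ?_⟩
  intro i l hil k hk
  simp only [decide_eq_true_eq] at hil ⊢
  obtain ⟨j, h1, h2⟩ := hil
  obtain ⟨m, hm, hSm⟩ := hS i j h1 k hk
  obtain ⟨n, hn, hTn⟩ := hT j l h2 m hm
  exact ⟨n, hn, m + 1, hSm, hTn⟩

/-- The equivalence relation. -/
def E : Setoid X where
  r x y := Sim x y ∧ Sim y x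
  iseqv := ⟨fun x => ⟨Sim.refl x, Sim.refl x⟩, fun h => ⟨h.2, h.1⟩,
    fun h h' => ⟨h.1.trans h'.1, h'.2.trans h.2⟩⟩

theorem E_iff {x y : X} : E x y ↔ Sim x y ∧ Sim y x := Iff.rfl

/-! ### Ranks -/

theorem Sim.acc_aux {x y : X} {S : ℕ × ℕ → Bool}
    (hS : ∀ i j, S (i, j) = true → ∀ k, (x k : ℕ) = i →
      ∃ l, (y l : ℕ) = j ∧ S (k + 1, l + 1) = true) {j : ℕ} (hj : Acc (R y) j) :
    ∀ i, S (i, j) = true → ∃ hi : Acc (R x) i, hi.rank ≤ hj.rank := by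
  induction hj with
  | intro j hj ih =>
    intro i hij
    have key : ∀ a, R x a i → ∃ (b : ℕ) (hb : R y b j) (ha : Acc (R x) a),
        ha.rank ≤ (hj b hb).rank := by
      rintro a ⟨k, rfl, hk⟩
      obtain ⟨l, hl, hS'⟩ := hS i j hij k hk
      have hb : R y (l + 1) j := ⟨l, rfl, hl⟩
      obtain ⟨ha, hle⟩ := ih (l + 1) hb (k + 1) hS'
      exact ⟨l + 1, hb, ha, hle⟩
    have hi : Acc (R x) i := Acc.intro i fun a ha => by
      obtain ⟨b, hb, ha', _⟩ := key a ha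
      exact ha'
    refine ⟨hi, ?_⟩
    rw [Acc.rank_eq]
    refine Ordinal.iSup_le ?_
    rintro ⟨a, ha⟩
    obtain ⟨b, hb, ha', hle⟩ := key a ha
    have h3 : (hj b hb).rank < (Acc.intro j hj).rank := Acc.rank_lt_of_rel (Acc.intro j hj) hb
    exact Order.succ_le_of_lt (lt_of_le_of_lt hle h3)

theorem Sim.acc {x y : X} (h : Sim x y) (hy : Acc (R y) 0) :
    ∃ hx : Acc (R x) 0, hx.rank ≤ hy.rank := by
  obtain ⟨S, h0, hS⟩ := h
  exact Sim.acc_aux hS hy 0 h0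

theorem exists_child_of_not_acc {y : X} {j : ℕ} (h : ¬ Acc (R y) j) :
    ∃ l, (y l : ℕ) = j ∧ ¬ Acc (R y) (l + 1) := by
  obtain ⟨b, hb, ⟨k, rfl, hk⟩⟩ := exists_not_acc_lt_of_not_acc h
  exact ⟨k, hk, hb⟩

theorem exists_child_rank {y : X} {j : ℕ} (h : Acc (R y) j) {β : Ordinal.{0}} (hβ : β < h.rank) :
    ∃ l, (y l : ℕ) = j ∧ ∃ h' : Acc (R y) (l + 1), β ≤ h'.rank := by
  rw [Acc.rank_eq, Ordinal.lt_iSup_iff] at hβ
  obtain ⟨⟨b, ⟨k, rfl, hk⟩⟩, hb⟩ := hβ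
  exact ⟨k, hk, _, Order.le_of_lt_succ hb⟩

theorem sim_of {x y : X} (h : ∀ hy : Acc (R y) 0, ∃ hx : Acc (R x) 0, hx.rank ≤ hy.rank) :
    Sim x y := by
  classical
  refine ⟨fun p => decide (∀ hy : Acc (R y) p.2, ∃ hx : Acc (R x) p.1, hx.rank ≤ hy.rank),
    by simpa using h, ?_⟩
  intro i j hij k hk
  simp only [decide_eq_true_eq] at hij ⊢
  by_cases hj : Acc (R y) j
  · obtain ⟨hi, hle⟩ := hij hj
    have hR : R x (k + 1) i := ⟨k, rfl, hk⟩
    have hlt : (hi.inv hR).rank < hi.rank := Acc.rank_lt_of_rel hi hR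
    obtain ⟨l, hl, h', hl'⟩ := exists_child_rank hj (lt_of_lt_of_le hlt hle)
    exact ⟨l, hl, fun _ => ⟨hi.inv hR, hl'⟩⟩
  · obtain ⟨l, hl, hl'⟩ := exists_child_of_not_acc hj
    exact ⟨l, hl, fun h => absurd h hl'⟩

theorem sim_iff {x y : X} :
    Sim x y ↔ ∀ hy : Acc (R y) 0, ∃ hx : Acc (R x) 0, hx.rank ≤ hy.rank :=
  ⟨fun h hy => h.acc hy, sim_of⟩

/-- The class of rank `α`. -/
def Cls (α : Ordinal.{0}) : Set X := {x | ∃ h : Acc (R x) 0, h.rank = α}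

/-- The class of ill-founded trees. -/
def Ill : Set X := {x | ¬ Acc (R x) 0}

theorem E_cls {α : Ordinal.{0}} {x : X} (hx : x ∈ Cls α) (y : X) : E x y ↔ y ∈ Cls α := by
  obtain ⟨hx, rfl⟩ := hx
  rw [E_iff, sim_iff, sim_iff]
  constructor
  · rintro ⟨h1, h2⟩
    obtain ⟨hy, h3⟩ := h2 hx
    obtain ⟨_, h4⟩ := h1 hy
    exact ⟨hy, le_antisymm h3 h4⟩
  · rintro ⟨hy, h⟩
    exact ⟨fun _ => ⟨hx, h.symm.le⟩, fun _ => ⟨hy, h.le⟩⟩

theorem E_ill {x : X} (hx : x ∈ Ill) (y : X) : E x y ↔ y ∈ Ill := by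
  rw [E_iff, sim_iff, sim_iff]
  constructor
  · rintro ⟨h1, _⟩ hy
    obtain ⟨h, _⟩ := h1 hy
    exact hx h
  · intro hy
    exact ⟨fun h => absurd h hy, fun h => absurd h hx⟩

theorem setOf_E_cls {α : Ordinal.{0}} {x : X} (hx : x ∈ Cls α) : {y | E x y} = Cls α := by
  ext y; exact E_cls hx y

theorem setOf_E_ill {x : X} (hx : x ∈ Ill) : {y | E x y} = Ill := by
  ext y; exact E_ill hx y

theorem mem_cls_rank {x : X} (h : Acc (R x) 0) : x ∈ Cls h.rank := ⟨h, rfl⟩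

theorem mem_ill_or (x : X) : x ∈ Ill ∨ ∃ α, x ∈ Cls α := by
  by_cases h : Acc (R x) 0
  · exact Or.inr ⟨_, mem_cls_rank h⟩
  · exact Or.inl h

theorem cls_unique {x : X} {α β : Ordinal.{0}} (h : x ∈ Cls α) (h' : x ∈ Cls β) : α = β := by
  obtain ⟨_, rfl⟩ := h
  obtain ⟨_, rfl⟩ := h'
  rfl

theorem not_ill_of_cls {x : X} {α : Ordinal.{0}} (h : x ∈ Cls α) : x ∉ Ill :=
  fun h' => h' h.1

/-! ### `E` is analytic -/

theorem continuous_coord (k : ℕ) : Continuous (fun x : X => x k) := continuous_apply k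

theorem measurableSet_par (k i : ℕ) : MeasurableSet {x : X | (x k : ℕ) = i} := by
  have h : Measurable (fun x : X => ((x k : Fin (k + 1)) : ℕ)) :=
    (measurable_of_countable (fun a : Fin (k + 1) => (a : ℕ))).comp (measurable_pi_apply k)
  exact h (measurableSet_singleton i)

theorem measurableSet_simSet :
    MeasurableSet {p : (X × X) × (ℕ × ℕ → Bool) | p.2 (0, 0) = true ∧
      ∀ i j, p.2 (i, j) = true → ∀ k, (p.1.1 k : ℕ) = i →
        ∃ l, (p.1.2 l : ℕ) = j ∧ p.2 (k + 1, l + 1) = true} := by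
  have hS : ∀ q : ℕ × ℕ, MeasurableSet {p : (X × X) × (ℕ × ℕ → Bool) | p.2 q = true} := by
    intro q
    have : Measurable (fun p : (X × X) × (ℕ × ℕ → Bool) => p.2 q) :=
      (measurable_pi_apply q).comp measurable_snd
    exact this (measurableSet_singleton true)
  have h1 : ∀ k i, MeasurableSet {p : (X × X) × (ℕ × ℕ → Bool) | (p.1.1 k : ℕ) = i} := fun k i =>
    (measurable_fst.comp measurable_fst) (measurableSet_par k i)
  have h2 : ∀ k i, MeasurableSet {p : (X × X) × (ℕ × ℕ → Bool) | (p.1.2 k : ℕ) = i} := fun k i =>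
    (measurable_snd.comp measurable_fst) (measurableSet_par k i)
  have : {p : (X × X) × (ℕ × ℕ → Bool) | p.2 (0, 0) = true ∧
      ∀ i j, p.2 (i, j) = true → ∀ k, (p.1.1 k : ℕ) = i →
        ∃ l, (p.1.2 l : ℕ) = j ∧ p.2 (k + 1, l + 1) = true} = {p | p.2 (0, 0) = true} ∩
      ⋂ i : ℕ, ⋂ j : ℕ, ({p | p.2 (i, j) = true}ᶜ ∪ ⋂ k : ℕ, ({p | (p.1.1 k : ℕ) = i}ᶜ ∪
        ⋃ l : ℕ, ({p | (p.1.2 l : ℕ) = j} ∩ {p | p.2 (k + 1, l + 1) = true}))) := by
    ext p
    simp only [mem_ofPred_eq, mem_iInter, mem_union, mem_compl_iff, mem_iUnion, mem_inter_iff,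
      imp_iff_not_or]
  rw [this]
  refine (hS _).inter ?_
  refine MeasurableSet.iInter fun i => MeasurableSet.iInter fun j => (hS _).compl.union ?_
  refine MeasurableSet.iInter fun k => (h1 _ _).compl.union ?_
  exact MeasurableSet.iUnion fun l => (h2 _ _).inter (hS _)

theorem analyticSet_sim : AnalyticSet {p : X × X | Sim p.1 p.2} := by
  have h : AnalyticSet (Prod.fst '' {p : (X × X) × (ℕ × ℕ → Bool) | p.2 (0, 0) = true ∧
      ∀ i j, p.2 (i, j) = true → ∀ k, (p.1.1 k : ℕ) = i →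
        ∃ l, (p.1.2 l : ℕ) = j ∧ p.2 (k + 1, l + 1) = true}) :=
    (measurableSet_simSet.analyticSet).image_of_continuous continuous_fst
  convert h using 1
  ext p
  constructor
  · rintro ⟨S, h1, h2⟩
    exact ⟨(p, S), ⟨h1, h2⟩, rfl⟩
  · rintro ⟨⟨q, S⟩, ⟨h1, h2⟩, rfl⟩
    exact ⟨S, h1, h2⟩

theorem analyticSet_E : AnalyticSet {p : X × X | E p.1 p.2} := by
  have h2 : AnalyticSet {p : X × X | Sim p.2 p.1} := by
    have := analyticSet_sim.image_of_continuous (continuous_swap (X := X) (Y := X))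
    convert this using 1
    ext p
    constructor
    · intro h
      exact ⟨(p.2, p.1), h, rfl⟩
    · rintro ⟨q, hq, rfl⟩
      exact hq
  have h3 : {p : X × X | E p.1 p.2} =
      ⋂ b : Bool, (if b then {p : X × X | Sim p.1 p.2} else {p : X × X | Sim p.2 p.1}) := by
    ext p
    simp [E_iff, and_comm]
  rw [h3]
  refine AnalyticSet.iInter fun b => ?_
  cases b
  · simpa using h2
  · simpa using analyticSet_sim

end Pool.Agent.W921.Idl
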